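import Mathlib

namespace Pool.Agent.Results.MP_2d49c6_co.Prescribed

open Finset

/-- c is a FAT k-coloring of G with parameter α -/
def FAT {V : Type} (G : SimpleGraph V) (k : ℕ) (c : V → Fin k) (α : ℝ) : Prop :=
  c.Surjective ∧ 0 ≤ α ∧ α ≤ 1 ∧ ∀ v i, ({u | G.Adj v u ∧ c u = i}.ncard : ℝ) =
    (if c v = i then 1 - (k - 1) * α else α) * (G.neighborSet v).ncard

/-- the FAT chromatic number of G is k -/
def ChiFAT {V : Type} (G : SimpleGraph V) (k : ℕ) : Prop :=
  IsGreatest {j | ∃ c α, FAT G j c α} k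

lemma dvd {V : Type} [Fintype V] (G : SimpleGraph V) (hG : G.Connected) (d : ℕ) (d0 : 0 < d)
    (hd : ∀ v, (G.neighborSet v).ncard = d) (j : ℕ) (c : V → Fin j) (α : ℝ) (h : FAT G j c α) :
    j ≤ d + 1 ∧ j ∣ Fintype.card V := by
  classical
  obtain ⟨hs, h0, -, h⟩ := h
  simp only [hd] at h
  have E : ∀ v i, {u | G.Adj v u ∧ c u = i}.ncard = #{u ∈ ({u | c u = i} : Finset V) | G.Adj v u} :=
    fun v i => by rw [← Set.ncard_coe_finset]; congr 1; ext; simp [and_comm]
  have pos : ∀ i i' : Fin j, i ≠ i' → 1 ≤ α * d := fun i i' ne => by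
    by_contra hα
    have cst : ∀ u v, G.Adj u v → c u = c v := fun u v a => by
      by_contra e
      have := h u (c v)
      rw [if_neg e] at this
      have p : 0 < {w | G.Adj u w ∧ c w = c v}.ncard := (Set.ncard_pos).mpr ⟨v, a, rfl⟩
      have : (1 : ℝ) ≤ {w | G.Adj u w ∧ c w = c v}.ncard := by exact_mod_cast p
      exact hα (by linarith)
    obtain ⟨u, rfl⟩ := hs i
    obtain ⟨v, rfl⟩ := hs i'
    obtain ⟨w⟩ := hG u v
    induction w with
    | nil => exact ne rfl
    | cons a _ ih => exact ih (cst _ _ a ▸ ne)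
  have eq : ∀ i i' : Fin j, #{u | c u = i} = #{u | c u = i'} := fun i i' => by
    by_cases ne : i = i'
    · rw [ne]
    have s := sum_card_bipartiteAbove_eq_sum_card_bipartiteBelow (s := {u | c u = i})
      (t := {u | c u = i'}) G.Adj
    have s1 : ∀ i i' : Fin j, i ≠ i' → ∑ v ∈ ({u | c u = i} : Finset V),
        (#{u ∈ ({u | c u = i'} : Finset V) | G.Adj v u} : ℝ) = #{u | c u = i} * (α * d) :=
      fun i i' ne => by
        rw [sum_congr rfl (g := fun _ => α * d) fun v hv => by
          rw [← E, h, if_neg (by simpa using (mem_filter.mp hv).2 ▸ ne)]]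
        simp
    have s2 := s1 i' i (Ne.symm ne)
    have s3 := congrArg (Nat.cast : ℕ → ℝ) s
    simp only [bipartiteAbove, bipartiteBelow, Nat.cast_sum] at s3
    rw [s1 i i' ne] at s3
    simp only [fun a b => G.adj_comm a b] at s3
    have := s3.trans s2
    have p := pos i i' ne
    exact_mod_cast mul_right_cancel₀ (by linarith) this
  obtain ⟨v⟩ := hG.nonempty
  constructor
  · by_contra hj
    obtain ⟨i, hi⟩ : ∃ i, i ≠ c v := by
      have : Nontrivial (Fin j) := Fin.nontrivial_iff_two_le.mpr (by omega)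
      exact exists_ne _
    have p := pos _ _ hi
    have q := h v (c v)
    rw [if_pos rfl] at q
    have : (0 : ℝ) ≤ {u | G.Adj v u ∧ c u = c v}.ncard := by positivity
    have : (d : ℝ) + 2 ≤ j := by exact_mod_cast (by omega : d + 2 ≤ j)
    nlinarith
  · refine ⟨#{u | c u = c v}, ?_⟩
    rw [← card_univ, card_eq_sum_card_fiberwise (f := c) (t := univ) (by simp),
      sum_congr rfl fun i _ => eq i (c v)]
    simp

noncomputable def D (m r : ℕ) : Finset (ZMod m) := ((Icc (-(r : ℤ)) r).erase 0).image Int.cast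

lemma inj (m r : ℕ) (h : 2 * r < m) {x y : ℤ} (hx : x ∈ Icc (-(r : ℤ)) r) (hy : y ∈ Icc (-(r : ℤ)) r)
    (e : (x : ZMod m) = y) : x = y := by
  rw [mem_Icc] at hx hy
  have := Int.eq_zero_of_abs_lt_dvd ((ZMod.intCast_eq_intCast_iff_dvd_sub _ _ _).mp e)
    (by rw [abs_lt]; omega)
  omega

lemma cardD (m r : ℕ) (h : 2 * r < m) : #(D m r) = 2 * r := by
  rw [D, card_image_of_injOn fun x hx y hy => inj m r h (mem_of_mem_erase hx) (mem_of_mem_erase hy),
    card_erase_of_mem (by simp)]
  simp; omega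

lemma negD {m r : ℕ} {x : ZMod m} (h : x ∈ D m r) : -x ∈ D m r := by
  obtain ⟨y, hy, rfl⟩ := mem_image.mp h
  exact mem_image.mpr ⟨-y, by simp at hy ⊢; omega, by simp⟩

/-- Every admissible parameter occurs at the FAT chromatic number. -/
theorem result (k : ℕ) (hk : 2 ≤ k) (α : ℚ) (h0 : 0 < α) (h1 : α ≤ 1 / (k - 1)) :
    ∃ (V : Type) (_ : Fintype V) (G : SimpleGraph V), Nontrivial V ∧ G.Connected ∧ ChiFAT G k ∧
      ∃ c, FAT G k c α := by
  obtain ⟨k, rfl⟩ : ∃ t, k = t + 2 := ⟨k - 2, by omega⟩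
  obtain ⟨a, ha⟩ := Int.eq_ofNat_of_zero_le (Rat.num_pos.mpr h0).le
  have a0 : 0 < a := by have := Rat.num_pos.mpr h0; omega
  have e : α * α.den = a := by rw [Rat.mul_den_eq_num, ha]; simp
  obtain ⟨q, hq⟩ : ∃ q, α.den = q + (k + 1) * a := by
    refine ⟨α.den - (k + 1) * a, (Nat.sub_add_cancel ?_).symm⟩
    rw [le_div_iff₀ (by push_cast; linarith [(k.cast_nonneg : (0 : ℚ) ≤ k)])] at h1
    have : ((k + 1) * a : ℚ) ≤ α.den := by
      push_cast at h1; nlinarith [(α.den.cast_nonneg : (0 : ℚ) ≤ α.den)]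
    exact_mod_cast this
  set b := α.den
  obtain ⟨m, hm, pm⟩ := Nat.exists_infinite_primes (2 * b + 2)
  have := Fact.mk pm
  have lt : ∀ p : Prop, [Decidable p] → 2 * (if p then q else a) < m := fun p _ => by
    split_ifs <;> nlinarith
  let G : SimpleGraph (Fin (k + 2) × ZMod m) :=
    { Adj := fun u v => v.2 - u.2 ∈ D m (if u.1 = v.1 then q else a)
      symm := ⟨fun u v h => by simpa [eq_comm] using negD h⟩
      loopless := ⟨fun u h => by
        obtain ⟨y, hy, e⟩ := mem_image.mp h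
        exact (mem_erase.mp hy).1 (inj m _ (lt _) (mem_of_mem_erase hy) (by simp) (by simpa using e))⟩ }
  have cnt : ∀ v i, {u | G.Adj v u ∧ u.1 = i}.ncard = 2 * if v.1 = i then q else a := fun v i => by
    rw [← cardD m _ (lt _), ← Set.ncard_coe_finset]
    refine Set.ncard_congr (fun u _ => u.2 - v.2) ?_ ?_ fun x hx => ⟨(i, x + v.2), ?_, by simp⟩
    · rintro u ⟨h, rfl⟩; exact h
    · rintro u w ⟨-, h⟩ ⟨-, h'⟩ e
      exact Prod.ext (h.trans h'.symm) (sub_left_injective e)
    · simpa [G] using hx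
  have deg : ∀ v, (G.neighborSet v).ncard = 2 * b := fun v => by
    classical
    have : ∀ i, #{u ∈ G.neighborFinset v | u.1 = i} = 2 * if v.1 = i then q else a := fun i => by
      rw [← cnt, ← Set.ncard_coe_finset]; congr 1; ext; simp
    rw [← SimpleGraph.coe_neighborFinset, Set.ncard_coe_finset,
      card_eq_sum_card_fiberwise (f := Prod.fst) (t := univ) (by simp), sum_congr rfl fun i _ => this i,
      ← mul_sum, ← add_sum_erase _ _ (mem_univ v.1), if_pos rfl,
      sum_congr rfl fun i hi => if_neg (ne_of_mem_erase hi).symm, hq]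
    simp
  have con : G.Connected := by
    have st : ∀ i j x, i ≠ j → G.Reachable (i, x) (j, x + 1) := fun i j x h =>
      SimpleGraph.Adj.reachable (mem_image.mpr ⟨1, by simp [h]; omega, by simp⟩)
    have s2 : ∀ n : ℕ, G.Reachable (0, 0) (0, n * 2) := fun n => by
      induction n with
      | zero => simp
      | succ n ih =>
        convert (ih.trans (st 0 1 _ zero_ne_one)).trans (st 1 0 _ one_ne_zero) using 2
        push_cast; ring
    have two : (2 : ZMod m) ≠ 0 := fun h => by
      have := Nat.le_of_dvd two_pos ((ZMod.natCast_eq_zero_iff 2 m).mp h)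
      nlinarith
    have s3 : ∀ x, G.Reachable (0, 0) (0, x) := fun x => by simpa [two] using s2 (x / 2).val
    have s4 : ∀ u, G.Reachable (0, 0) u := fun u => by
      by_cases h : 0 = u.1
      · exact (show (0, u.2) = u from Prod.ext h rfl) ▸ s3 u.2
      · simpa using (s3 (u.2 - 1)).trans (st 0 u.1 _ h)
    exact ⟨fun u v => (s4 u).symm.trans (s4 v)⟩
  have eR : (α : ℝ) * b = a := by exact_mod_cast e
  have qR : (b : ℝ) = q + (k + 1) * a := by exact_mod_cast hq
  have fat : FAT G (k + 2) Prod.fst α := by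
    refine ⟨Prod.fst_surjective, by exact_mod_cast h0.le, ?_, fun v i => ?_⟩
    · exact_mod_cast h1.trans ((div_le_one (by push_cast; linarith [(k.cast_nonneg : (0 : ℚ) ≤ k)])).mpr
        (by push_cast; linarith [(k.cast_nonneg : (0 : ℚ) ≤ k)]))
    · rw [cnt, deg]
      split_ifs <;> push_cast
      · linear_combination 2 * (k + 1) * eR - 2 * qR
      · linear_combination -2 * eR
  refine ⟨_, inferInstance, G, inferInstance, con, ⟨⟨_, _, fat⟩, ?_⟩, _, fat⟩
  rintro j ⟨c, β, h⟩
  obtain ⟨p1, p2⟩ := dvd G con (2 * b) (by nlinarith) deg j c β h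
  rw [Fintype.card_prod, Fintype.card_fin, ZMod.card] at p2
  rcases j.eq_zero_or_pos with rfl | j0
  · omega
  exact Nat.le_of_dvd (by omega)
    ((Nat.coprime_of_lt_prime j0.ne' (by omega) pm).symm.dvd_of_dvd_mul_right p2)

end Pool.Agent.Results.MP_2d49c6_co.Prescribed
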